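import Pool.Agent.H63.AC.Stm

/-!
# Project AC (helper63): products of asymptotic formulas (by helper962)
-/

set_option autoImplicit false

namespace Pool.Agent.H63.AC.P.App

open Complex MeasureTheory Filter Topology
open Pool.Agent.H63.AC

theorem norm_exp_I (x : ℝ) : ‖cexp (I * (x : ℂ))‖ = 1 := by
  rw [mul_comm]
  exact norm_exp_ofReal_mul_I x

/-- upper bound -/
theorem app_bound {f : ℝ → ℂ} {A : ℝ} {θ : ℝ → ℝ} (h : App f A θ) :
    ∃ K t0 : ℝ, 0 ≤ K ∧ 1 ≤ t0 ∧ ∀ t : ℝ, t0 ≤ t → ‖f t‖ ≤ K * t ^ A := by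
  obtain ⟨C, K, t0, ht0, h⟩ := h
  refine ⟨‖C‖ + |K|, t0, by positivity, ht0, fun t ht => ?_⟩
  have h1 := h t ht
  have ht1 : 1 ≤ t := ht0.trans ht
  have htp : 0 < t := by linarith
  have hA : 0 < t ^ A := Real.rpow_pos_of_pos htp A
  have h2 : t ^ (A - 1) ≤ t ^ A := Real.rpow_le_rpow_of_exponent_le ht1 (by linarith)
  have h3 : ‖C * ((t ^ A : ℝ) : ℂ) * cexp (I * (θ t : ℂ))‖ = ‖C‖ * t ^ A := by
    rw [norm_mul, norm_mul, norm_exp_I, mul_one, Complex.norm_real, Real.norm_eq_abs,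
      abs_of_pos hA]
  have h4 : ‖f t‖ ≤ ‖f t - C * ((t ^ A : ℝ) : ℂ) * cexp (I * (θ t : ℂ))‖ +
      ‖C * ((t ^ A : ℝ) : ℂ) * cexp (I * (θ t : ℂ))‖ := by
    have := norm_add_le (f t - C * ((t ^ A : ℝ) : ℂ) * cexp (I * (θ t : ℂ)))
      (C * ((t ^ A : ℝ) : ℂ) * cexp (I * (θ t : ℂ)))
    rwa [sub_add_cancel] at this
  have h5 : K * t ^ (A - 1) ≤ |K| * t ^ A := by
    calc K * t ^ (A - 1) ≤ |K| * t ^ (A - 1) :=
          mul_le_mul_of_nonneg_right (le_abs_self K) (Real.rpow_nonneg htp.le _)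
      _ ≤ |K| * t ^ A := mul_le_mul_of_nonneg_left h2 (abs_nonneg K)
  rw [h3] at h4
  calc ‖f t‖ ≤ |K| * t ^ A + ‖C‖ * t ^ A := by linarith
    _ = _ := by ring

theorem app_mul {f g : ℝ → ℂ} {A B : ℝ} {θ ψ : ℝ → ℝ} (hf : App f A θ) (hg : App g B ψ) :
    App (fun t => f t * g t) (A + B) (fun t => θ t + ψ t) := by
  obtain ⟨Kg, tg, hKg, htg, hgb⟩ := app_bound hg
  obtain ⟨C, K, t0, ht0, hf⟩ := hf
  obtain ⟨C', K', t1, ht1, hg⟩ := hg
  refine ⟨C * C', |K| * Kg + ‖C‖ * |K'|, max (max t0 t1) tg,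
    ht0.trans ((le_max_left _ _).trans (le_max_left _ _)), fun t ht => ?_⟩
  have h0 : t0 ≤ t := (le_max_left _ _).trans ((le_max_left _ _).trans ht)
  have h1 : t1 ≤ t := (le_max_right _ _).trans ((le_max_left _ _).trans ht)
  have h2 : tg ≤ t := (le_max_right _ _).trans ht
  have htp : 0 < t := by linarith
  have hA : 0 < t ^ A := Real.rpow_pos_of_pos htp A
  have hB : 0 < t ^ B := Real.rpow_pos_of_pos htp B
  have e1 : f t * g t - C * C' * ((t ^ (A + B) : ℝ) : ℂ) * cexp (I * ((θ t + ψ t : ℝ) : ℂ)) =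
      (f t - C * ((t ^ A : ℝ) : ℂ) * cexp (I * (θ t : ℂ))) * g t +
      (C * ((t ^ A : ℝ) : ℂ) * cexp (I * (θ t : ℂ))) *
        (g t - C' * ((t ^ B : ℝ) : ℂ) * cexp (I * (ψ t : ℂ))) := by
    rw [Real.rpow_add htp]
    push_cast
    rw [mul_add, Complex.exp_add]
    ring
  show ‖f t * g t - C * C' * ((t ^ (A + B) : ℝ) : ℂ) * cexp (I * ((θ t + ψ t : ℝ) : ℂ))‖ ≤ _
  rw [e1]
  have e2 : t ^ (A + B - 1) = t ^ (A - 1) * t ^ B := by
    rw [← Real.rpow_add htp]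
    congr 1
    ring
  have e3 : t ^ (A + B - 1) = t ^ A * t ^ (B - 1) := by
    rw [← Real.rpow_add htp]
    congr 1
    ring
  have n1 : ‖(f t - C * ((t ^ A : ℝ) : ℂ) * cexp (I * (θ t : ℂ))) * g t‖ ≤
      |K| * Kg * t ^ (A + B - 1) := by
    rw [norm_mul, e2]
    have k1 : ‖f t - C * ((t ^ A : ℝ) : ℂ) * cexp (I * (θ t : ℂ))‖ ≤ |K| * t ^ (A - 1) :=
      (hf t h0).trans (mul_le_mul_of_nonneg_right (le_abs_self K) (Real.rpow_nonneg htp.le _))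
    calc _ ≤ (|K| * t ^ (A - 1)) * (Kg * t ^ B) :=
          mul_le_mul k1 (hgb t h2) (norm_nonneg _)
            (mul_nonneg (abs_nonneg _) (Real.rpow_nonneg htp.le _))
      _ = _ := by ring
  have n2 : ‖(C * ((t ^ A : ℝ) : ℂ) * cexp (I * (θ t : ℂ))) *
        (g t - C' * ((t ^ B : ℝ) : ℂ) * cexp (I * (ψ t : ℂ)))‖ ≤ ‖C‖ * |K'| * t ^ (A + B - 1) := by
    rw [norm_mul, norm_mul, norm_mul, norm_exp_I, mul_one, Complex.norm_real, Real.norm_eq_abs,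
      abs_of_pos hA, e3]
    have k1 : ‖g t - C' * ((t ^ B : ℝ) : ℂ) * cexp (I * (ψ t : ℂ))‖ ≤ |K'| * t ^ (B - 1) :=
      (hg t h1).trans (mul_le_mul_of_nonneg_right (le_abs_self K') (Real.rpow_nonneg htp.le _))
    calc _ ≤ (‖C‖ * t ^ A) * (|K'| * t ^ (B - 1)) :=
          mul_le_mul_of_nonneg_left k1 (by positivity)
      _ = _ := by ring
  calc _ ≤ |K| * Kg * t ^ (A + B - 1) + ‖C‖ * |K'| * t ^ (A + B - 1) :=
        (norm_add_le _ _).trans (add_le_add n1 n2)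
    _ = _ := by ring

/-- only large `t` matter -/
theorem app_congr {f g : ℝ → ℂ} {A : ℝ} {θ ψ : ℝ → ℝ} (hf : App f A θ) (t1 : ℝ)
    (h : ∀ t, t1 ≤ t → g t = f t) (h' : ∀ t, t1 ≤ t → ψ t = θ t) : App g A ψ := by
  obtain ⟨C, K, t0, ht0, hf⟩ := hf
  refine ⟨C, K, max t0 t1, ht0.trans (le_max_left _ _), fun t ht => ?_⟩
  rw [h t ((le_max_right _ _).trans ht), h' t ((le_max_right _ _).trans ht)]
  exact hf t ((le_max_left _ _).trans ht)

theorem app_prod (m : ℕ) (f : Fin m → ℝ → ℂ) (A : ℝ) (θ : ℝ → ℝ) (h : ∀ j, App (f j) A θ) :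
    App (fun t => ∏ j, f j t) (m * A) (fun t => m * θ t) := by
  induction m with
  | zero =>
    refine ⟨1, 0, 1, le_rfl, fun t _ => ?_⟩
    simp
  | succ m ih =>
    have h1 := ih (fun j => f j.succ) (fun j => h j.succ)
    have h2 := app_mul (h 0) h1
    have e1 : A + (m : ℝ) * A = ((m + 1 : ℕ) : ℝ) * A := by
      push_cast
      ring
    rw [e1] at h2
    refine app_congr h2 1 (fun t _ => ?_) (fun t _ => ?_)
    · rw [Fin.prod_univ_succ]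
    · push_cast
      ring

theorem t_app : S_app :=
  ⟨fun _ _ _ _ _ _ hf hg => app_mul hf hg, app_prod⟩

end Pool.Agent.H63.AC.P.App
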