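import Pool.Agent.H63.AC.Stm2

/-!
# AC-DEG: the places whose norm is not a prime number (helper356)
-/

set_option autoImplicit false
set_option linter.deprecated false
set_option linter.unusedSectionVars false

namespace Pool.Agent.H63.AC.P.Deg

open NumberField IsDedekindDomain

section
variable (K : Type) [Field K] [NumberField K]

/-- the prime number below `v` -/
noncomputable def pr (v : HeightOneSpectrum (𝓞 K)) : ℕ :=
  Ideal.absNorm (Ideal.under ℤ v.asIdeal)

theorem pr_prime (v : HeightOneSpectrum (𝓞 K)) : (pr K v).Prime := by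
  have : NeZero v.asIdeal := ⟨v.ne_bot⟩
  exact Nat.absNorm_under_prime v.asIdeal

theorem pr_over (v : HeightOneSpectrum (𝓞 K)) :
    v.asIdeal.LiesOver (Ideal.span {((pr K v : ℕ) : ℤ)}) :=
  Int.liesOver_span_absNorm v.asIdeal

theorem sq_le (v : HeightOneSpectrum (𝓞 K)) (h : ¬ (Ideal.absNorm v.asIdeal).Prime) :
    (pr K v) ^ 2 ≤ Ideal.absNorm v.asIdeal := by
  have h0 := pr_over K v
  have h1 := Ideal.absNorm_eq_pow_inertiaDeg' v.asIdeal (pr_prime K v)
  rw [h1]
  refine Nat.pow_le_pow_right (pr_prime K v).pos ?_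
  by_contra hcon
  push Not at hcon
  have h2 : (Ideal.span {((pr K v : ℕ) : ℤ)}).inertiaDeg' v.asIdeal = 0 ∨
      (Ideal.span {((pr K v : ℕ) : ℤ)}).inertiaDeg' v.asIdeal = 1 := by omega
  rcases h2 with h2 | h2
  · rw [h2, pow_zero, Ideal.absNorm_eq_one_iff] at h1
    exact v.isPrime.ne_top h1
  · rw [h2, pow_one] at h1
    rw [h1] at h
    exact h (pr_prime K v)

theorem fiber_le (F : Finset {v : HeightOneSpectrum (𝓞 K) //
    ¬ (Ideal.absNorm v.asIdeal).Prime}) (m : ℕ) :
    (F.filter (fun v => pr K v.1 = m)).card ≤ Module.finrank ℚ K := by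
  classical
  rcases (F.filter (fun v => pr K v.1 = m)).eq_empty_or_nonempty with h | ⟨v, hv⟩
  · rw [h, Finset.card_empty]; exact Nat.zero_le _
  · rw [Finset.mem_filter] at hv
    have hm : m.Prime := by rw [← hv.2]; exact pr_prime K v.1
    have hne : Ideal.span {(m : ℤ)} ≠ ⊥ := by
      rw [Ne, Ideal.span_singleton_eq_bot]
      exact_mod_cast hm.ne_zero
    have hmax : (Ideal.span {(m : ℤ)}).IsMaximal :=
      PrincipalIdealRing.isMaximal_of_irreducible (Nat.prime_iff_prime_int.mp hm).irreducible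
    refine le_trans ?_ (Ideal.card_primesOverFinset_le_finrank (𝓞 K) ℚ K hne)
    refine Finset.card_le_card_of_injOn (fun v => v.1.asIdeal) ?_ ?_
    · intro w hw
      rw [Finset.mem_coe, Finset.mem_filter] at hw
      rw [Finset.mem_coe, IsDedekindDomain.mem_primesOverFinset_iff hne]
      have h1 := pr_over K w.1
      rw [hw.2] at h1
      exact ⟨w.1.isPrime, h1⟩
    · intro w _ w' _ hww
      exact Subtype.ext (HeightOneSpectrum.ext hww)

end

theorem t_deg : Pool.Agent.H63.AC.S_deg := by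
  classical
  intro K _ _ c hc
  have hs : Summable (fun m : ℕ => (m : ℝ) ^ (-(2 * c))) := by
    rw [Real.summable_nat_rpow]
    linarith
  have hpos : ∀ m : ℕ, (0 : ℝ) ≤ (m : ℝ) ^ (-(2 * c)) := fun m =>
    Real.rpow_nonneg (Nat.cast_nonneg m) _
  have hS : Summable (fun v : {v : HeightOneSpectrum (𝓞 K) //
      ¬ (Ideal.absNorm v.asIdeal).Prime} => ((pr K v.1 : ℕ) : ℝ) ^ (-(2 * c))) := by
    refine summable_of_sum_le (c := (Module.finrank ℚ K : ℝ) * ∑' m : ℕ, (m : ℝ) ^ (-(2 * c)))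
      (fun v => hpos _) ?_
    intro F
    have h0 := Finset.sum_comp (s := F) (fun m : ℕ => (m : ℝ) ^ (-(2 * c)))
      (fun v : {v : HeightOneSpectrum (𝓞 K) // ¬ (Ideal.absNorm v.asIdeal).Prime} => pr K v.1)
    rw [h0]
    have h1 : ∑ m ∈ F.image (fun v => pr K v.1), (F.filter (fun v => pr K v.1 = m)).card •
        (m : ℝ) ^ (-(2 * c)) ≤
        ∑ m ∈ F.image (fun v => pr K v.1), (Module.finrank ℚ K : ℝ) * (m : ℝ) ^ (-(2 * c)) := by
      refine Finset.sum_le_sum fun m _ => ?_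
      rw [nsmul_eq_mul]
      refine mul_le_mul_of_nonneg_right ?_ (hpos m)
      exact_mod_cast fiber_le K F m
    refine h1.trans ?_
    rw [← Finset.mul_sum]
    refine mul_le_mul_of_nonneg_left ?_ (Nat.cast_nonneg _)
    exact hs.sum_le_tsum _ (fun m _ => hpos m)
  refine Summable.of_nonneg_of_le (fun v => Real.rpow_nonneg (Nat.cast_nonneg _) _) ?_ hS
  intro v
  have h1 := sq_le K v.1 v.2
  have h2 : (0 : ℝ) < (pr K v.1 : ℕ) := by exact_mod_cast (pr_prime K v.1).pos
  have h3 : (((pr K v.1 : ℕ) : ℝ)) ^ (-(2 * c)) = ((((pr K v.1 : ℕ) : ℝ)) ^ 2) ^ (-c) := by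
    rw [← Real.rpow_natCast, ← Real.rpow_mul h2.le]
    congr 1
    push_cast
    ring
  rw [h3]
  refine Real.rpow_le_rpow_of_nonpos (by positivity) ?_ (by linarith)
  exact_mod_cast h1

end Pool.Agent.H63.AC.P.Deg
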