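import Pool.Agent.H63.AC.Stm

/-!
# AC: series, exponentials and geometric series of the functions `Pm`
-/

set_option autoImplicit false

namespace Pool.Agent.H63.AC.P.Pm2

open Complex MeasureTheory Filter Topology Pool.Agent.H63.AC

theorem pm_nonneg {f : ℝ → ℂ} {C : ℝ} (h : Pm f C) : 0 ≤ C := (norm_nonneg _).trans (h.2.1 0)

theorem pm_series {ι : Type} [Countable ι] {f : ι → ℝ → ℂ} {C : ι → ℝ}
    (h : ∀ i, Pm (f i) (C i)) (hC : Summable C) :
    Pm (fun t => ∑' i, f i t) (∑' i, C i) := by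
  refine ⟨continuous_tsum (fun i => (h i).1) hC (fun i t => (h i).2.1 t), fun t => ?_, ?_⟩
  · exact tsum_of_norm_bounded hC.hasSum (fun i => (h i).2.1 t)
  · intro g D hg hD
    have hD0 : 0 ≤ D := (norm_nonneg _).trans (hD 0)
    have hint : ∀ i, Integrable (fun t => g t * f i t) := fun i =>
      hg.mul_bdd (c := C i) (h i).1.aestronglyMeasurable
        (Filter.Eventually.of_forall fun t => (h i).2.1 t)
    have hle : ∀ i, ∫ t, ‖g t * f i t‖ ≤ C i * ∫ t, ‖g t‖ := by
      intro i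
      rw [← integral_const_mul]
      refine integral_mono (hint i).norm (hg.norm.const_mul _) fun t => ?_
      show ‖g t * f i t‖ ≤ C i * ‖g t‖
      rw [norm_mul, mul_comm]
      exact mul_le_mul_of_nonneg_right ((h i).2.1 t) (norm_nonneg _)
    have hsum : Summable fun i => ∫ t, ‖g t * f i t‖ :=
      Summable.of_nonneg_of_le (fun i => integral_nonneg fun t => norm_nonneg _) hle
        (hC.mul_right _)
    have hs := hasSum_integral_of_summable_integral_norm hint hsum
    have e : ∫ t, g t * ∑' i, f i t = ∫ t, ∑' i, g t * f i t := by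
      congr 1
      funext t
      rw [tsum_mul_left]
    rw [e, ← hs.tsum_eq]
    have h1 : HasSum (fun i => C i * D) ((∑' i, C i) * D) := hC.hasSum.mul_right D
    exact tsum_of_norm_bounded h1 (fun i => (h i).2.2 g D hg hD)

theorem pm_pow (h1 : S_pm1) {f : ℝ → ℂ} {C : ℝ} (h : Pm f C) (n : ℕ) :
    Pm (fun t => f t ^ n) (C ^ n) := by
  induction n with
  | zero =>
    have := h1.2.1 1
    rw [norm_one] at this
    simpa using this
  | succ n ih =>
    have := h1.2.2.2 _ _ _ _ ih h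
    simpa only [pow_succ] using this

theorem pm_exp (h1 : S_pm1) {f : ℝ → ℂ} {C : ℝ} (h : Pm f C) :
    Pm (fun t => cexp (f t)) (Real.exp C) := by
  have hsC : HasSum (fun n : ℕ => ((n.factorial : ℝ))⁻¹ * C ^ n) (Real.exp C) := by
    rw [Real.exp_eq_exp_ℝ]
    have := NormedSpace.expSeries_div_hasSum_exp (𝔸 := ℝ) C
    simpa only [div_eq_inv_mul] using this
  have hs : ∀ z : ℂ, HasSum (fun n : ℕ => ((n.factorial : ℂ))⁻¹ * z ^ n) (cexp z) := by
    intro z
    rw [Complex.exp_eq_exp_ℂ]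
    have := NormedSpace.expSeries_div_hasSum_exp (𝔸 := ℂ) z
    simpa only [div_eq_inv_mul] using this
  have hp : ∀ n : ℕ, Pm (fun t => ((n.factorial : ℂ))⁻¹ * f t ^ n)
      (((n.factorial : ℝ))⁻¹ * C ^ n) := by
    intro n
    have h2 := h1.2.2.2 _ _ _ _ (h1.2.1 ((n.factorial : ℂ))⁻¹) (pm_pow h1 h n)
    rw [norm_inv, Complex.norm_natCast] at h2
    exact h2
  have h3 := pm_series hp hsC.summable
  rw [hsC.tsum_eq] at h3
  have e : (fun t => ∑' n : ℕ, ((n.factorial : ℂ))⁻¹ * f t ^ n) = fun t => cexp (f t) := by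
    funext t
    exact (hs (f t)).tsum_eq
  rwa [e] at h3

theorem pm_inv (h1 : S_pm1) {f : ℝ → ℂ} {C : ℝ} (h : Pm f C) (hC : C < 1) :
    Pm (fun t => (1 - f t)⁻¹) (1 - C)⁻¹ := by
  have hC0 := pm_nonneg h
  have h3 := pm_series (fun n => pm_pow h1 h n) (summable_geometric_of_lt_one hC0 hC)
  rw [tsum_geometric_of_lt_one hC0 hC] at h3
  have e : (fun t => ∑' n : ℕ, f t ^ n) = fun t => (1 - f t)⁻¹ := by
    funext t
    exact tsum_geometric_of_norm_lt_one ((h.2.1 t).trans_lt hC)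
  rwa [e] at h3

theorem t_pm2 (h1 : S_pm1) : S_pm2 :=
  ⟨fun _ _ _ _ h hC => pm_series h hC, fun _ _ h => pm_exp h1 h, fun _ _ h hC => pm_inv h1 h hC⟩

end Pool.Agent.H63.AC.P.Pm2
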